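import Pool.Agent.N12.PH.Cnt

set_option autoImplicit false

/-!
# MP_39df77_nt: lower bounds of the conjectured order for the moments of zeta over the values of functions at the primes

Let `f t = ∑ a_x t ^ x` be a generalised polynomial (finitely many real exponents `x`) whose largest exponent `c > 0` is not
an integer, with `a_c > 0`; for instance `f t = α t ^ (3 / 2)`. For EVERY such `f`, the mean of the `2k`-th local moments of
the zeta function on the critical line over the heights `f p + β` in `[T, 2T]`, where `p` runs over the PRIMES `u < p ≤ v` of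
an arbitrary residue class, is at least of the conjectured order `(log T) ^ (k ^ 2)`, for every integer `k ≥ 1` (`k = 3`: the
sixth moment, order `(log T) ^ 9`); uniformly in the translation `β`, the modulus, the residue class and the interval `(u, v]`,
as long as there are at least `u ^ (1 - κ)` such primes.

Proof. Vaughan's identity and van der Corput's method give a power saving for the sums of `e(θ f(p) + β p)` over the primes of
an interval, uniformly for all REAL frequencies `u ^ (-η) ≤ θ ≤ u ^ η` and all `β`, in particular for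
`θ = log (m / n) / (2 π)` (`Pool.Agent.N12.PH`, adapted from the starting library `Pool.Agent.Y961.JR`, where the frequencies
are integers over integers). Then the lower bound for the moments of zeta over sparse sets of heights with small character
sums of helper461 (`Pool.Agent.R461.HM`) can be applied.
-/

namespace Pool.Agent.Results.MP_39df77_nt.PrimeHeights

open Complex MeasureTheory
open scoped ENNReal
open Pool.Agent.N12.MH.Gp (gp)
open Pool.Agent.N12.PH (pset Win)

noncomputable section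

/-- the mean of `|ζ(1/2 + i(t + u))|^(2k)` over `u` with the weight `L / (1 + L |u|) ^ N`, `L = log T` -/
def localMoment (k N : ℕ) (T t : ℝ) : ℝ≥0∞ :=
  ∫⁻ u : ℝ, ENNReal.ofReal (‖riemannZeta (1 / 2 + I * (t + u))‖ ^ (2 * k) *
    (Real.log T / (1 + Real.log T * |u|) ^ N))

/-- the mean of the local `2k`-th moments over the heights `f p + β`, `p` prime, `u < p ≤ v`, `p ≡ r` modulo `d` -/
def primeMean (k N : ℕ) (f : ℝ → ℝ) (β T : ℝ) (u v d r : ℕ) : ℝ≥0∞ :=
  ((pset u v d r).card : ℝ≥0∞)⁻¹ * ∑ p ∈ pset u v d r, localMoment k N T (f p + β)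

/-- **Lower bounds for the moments of zeta over heights at primes.** Let `f = ∑ a_x t ^ x` be a generalised polynomial of
non-integral order `c > 0`.

(1) There is `κ > 0` such that for all `k ≥ 1`, `N` and `D > 0` there are `C > 0` and `T₀` with: for all `T ≥ T₀`, all
`u`, `v ≤ 2 u`, `T ≤ u ^ D`, all `d ≥ 1`, `r` and `β` such that there are at least `u ^ (1 - κ)` primes `u < p ≤ v`, `p ≡ r`
modulo `d`, and that all `f p + β` are in `[T, 2T]`, the mean of the local `2k`-th moments over these heights `f p + β` is at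
least `C (log T) ^ (k ^ 2)`.

(2) For all `α > 0`, `k ≥ 1` and `N` there is `C > 0` such that for all coprime `r`, `d` and `0 < δ ≤ 1`: for all large `u`,
all `v` with `(1 + δ) u ≤ v ≤ 2 u` and all `T` with `T ≤ α u ^ c`, `α v ^ c ≤ 2 T` the mean of the local `2k`-th moments over
the heights `α p ^ c`, `p` prime, `u < p ≤ v`, `p ≡ r` modulo `d`, is at least `C (log T) ^ (k ^ 2)`. -/
theorem result (c : ℝ) (hc : 0 < c) (hcn : ∀ m : ℕ, c ≠ m) :
    (∀ (F : Finset ℝ) (a : ℝ → ℝ), c ∈ F → (∀ x ∈ F, x ≤ c) → 0 < a c →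
      ∃ κ : ℝ, 0 < κ ∧ ∀ k N : ℕ, 1 ≤ k → ∀ D : ℝ, 0 < D → ∃ C T₀ : ℝ, 0 < C ∧ ∀ T : ℝ, T₀ ≤ T →
        ∀ (u v d r : ℕ) (β : ℝ), Win (gp F a) κ D β T u v d r →
          ENNReal.ofReal (C * Real.log T ^ (k ^ 2)) ≤ primeMean k N (gp F a) β T u v d r) ∧
    (∀ (α : ℝ) (k N : ℕ), 0 < α → 1 ≤ k → ∃ C : ℝ, 0 < C ∧ ∀ d r : ℕ, 0 < d → r.Coprime d → ∀ δ : ℝ, 0 < δ → δ ≤ 1 →
      ∃ u₀ : ℕ, ∀ u v : ℕ, u₀ ≤ u → (1 + δ) * u ≤ v → v ≤ 2 * u → ∀ T : ℝ, T ≤ α * (u : ℝ) ^ c →
        α * (v : ℝ) ^ c ≤ 2 * T →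
          ENNReal.ofReal (C * Real.log T ^ (k ^ 2)) ≤ primeMean k N (fun t => α * t ^ c) 0 T u v d r) := by
  have main : ∀ (F : Finset ℝ) (a : ℝ → ℝ), c ∈ F → (∀ x ∈ F, x ≤ c) → 0 < a c →
      ∃ κ : ℝ, 0 < κ ∧ ∀ k N : ℕ, 1 ≤ k → ∀ D : ℝ, 0 < D → ∃ C T₀ : ℝ, 0 < C ∧ ∀ T : ℝ, T₀ ≤ T →
        ∀ (u v d r : ℕ) (β : ℝ), Win (gp F a) κ D β T u v d r →
          ENNReal.ofReal (C * Real.log T ^ (k ^ 2)) ≤ primeMean k N (gp F a) β T u v d r := by
    intro F a hcF hmax hac
    obtain ⟨η, hη, H⟩ := Pool.Agent.N12.PH.prime_heights F a c hc hcn hcF hmax hac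
    refine ⟨η / 2, by positivity, fun k N hk D hD => ?_⟩
    have hθ : 0 < η / (8 * D) := by positivity
    have hθ' : η / (8 * D) < η / (2 * D) := by
      apply div_lt_div_of_pos_left hη (by positivity)
      linarith
    obtain ⟨C, T₁, hC, hT₁, hlow⟩ := Pool.Agent.R461.HM.lower' hk N hθ hθ'
    obtain ⟨T₂, h⟩ := H D hD
    refine ⟨C, max T₁ T₂, hC, fun T hT u v d r β hw => ?_⟩
    have hTa := (le_max_left _ _).trans hT
    have hT0 : 0 < T := (Real.exp_pos 1).trans_le (hT₁.trans hTa)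
    have hL : 0 < Real.log T := by
      have : 1 ≤ Real.log T := by
        rw [Real.le_log_iff_exp_le hT0]
        exact hT₁.trans hTa
      linarith
    obtain ⟨-, h2⟩ := h T ((le_max_right _ _).trans hT) u v d r β hw
    have h1 := hlow T hTa _ h2
    rw [Pool.Agent.R461.HM.lintegral_unif k N hL,
      Pool.Agent.N12.PH.sum_enum (pset u v d r) (fun p : ℕ => Pool.Agent.R461.HM.loc k N T (gp F a p + β))] at h1
    exact h1
  refine ⟨main, fun α k N hα hk => ?_⟩
  obtain ⟨κ, hκ, h⟩ := main {c} (fun _ => α) (Finset.mem_singleton_self c)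
    (fun x hx => (Finset.mem_singleton.1 hx).le) hα
  obtain ⟨C, T₀, hC, h⟩ := h k N hk (c + 1) (by linarith)
  refine ⟨C, hC, fun d r hd hr δ hδ hδ1 => ?_⟩
  obtain ⟨u₁, hu₁⟩ := Pool.Agent.N12.PH.win_monomial c hc α hα κ hκ d r hd hr δ hδ hδ1
  have hlim : Filter.Tendsto (fun x : ℝ => α / 2 * x ^ c) Filter.atTop Filter.atTop :=
    (tendsto_rpow_atTop hc).const_mul_atTop (by positivity)
  obtain ⟨x₀, hx₀⟩ := Filter.eventually_atTop.1 (hlim.eventually_ge_atTop T₀)
  refine ⟨max u₁ ⌈x₀⌉₊, fun u v hu hv1 hv2 T hT1 hT2 => ?_⟩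
  have huv : (u : ℝ) ≤ v := by
    have : 0 ≤ δ * (u : ℝ) := by positivity
    linarith
  have hT : T₀ ≤ T := by
    have h3 := hx₀ u ((Nat.le_ceil x₀).trans (by exact_mod_cast (le_max_right _ _).trans hu))
    have h4 : (u : ℝ) ^ c ≤ (v : ℝ) ^ c := Real.rpow_le_rpow (Nat.cast_nonneg u) huv hc.le
    nlinarith
  have hgp : gp {c} (fun _ => α) = fun t => α * t ^ c := by
    funext t
    unfold gp
    rw [Finset.sum_singleton]
  have h5 := h T hT u v d r 0 (hu₁ u v ((le_max_left _ _).trans hu) hv1 hv2 T hT1 hT2)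
  rw [hgp] at h5
  exact h5

end

end Pool.Agent.Results.MP_39df77_nt.PrimeHeights
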