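import Pool.Agent.N30.AP.Fin
import Pool.Agent.N30.AP.L_STRIP
import Pool.Agent.N30.AP.L_VDC
import Pool.Agent.N30.AP.L_TRUNC
import Pool.Agent.N30.AP.L_SER
import Pool.Agent.N30.AP.L_POIS
import Pool.Agent.N30.AP.L_EQD
import Pool.Agent.N30.AP.L_MEA
import Pool.Agent.N30.AP.L_MEB
import Pool.Agent.N30.AP.L_MEC
import Pool.Agent.N30.AP.L_BLOCK
import Pool.Agent.N30.AP.L_FAM
import Pool.Agent.N30.AP.L_ING

/-!
# The moments of zeta from samples along arithmetic progressions below the Nyquist rate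

The function `|ζ(1/2+it)|^{2k}` has its frequencies in `[-k log T, k log T]` for `t` about `T`.  We show that its moments
over Gaussian windows and over intervals in `[T, 2T]` are equal, up to a power saving, to the sums over every arithmetic
progression of spacing at most `2π/(A log T)`, as soon as `A > k - 1`.  For the sixth moment every `A > 2` is allowed, for
the fourth moment every `A > 1`.

Method: Poisson's summation formula; the Fourier transform at the frequency `ν ≥ A log T` is moved to the line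
`Re s = 1 + η`, where by the functional equation it is a sum over `n` of oscillatory integrals with the phase
`k t log (t/2πe) - t log (n e^ν)`, each of which is `O(√T (T^k/(n e^ν))^{1/2+η})` by the second derivative test.

Parts of the proof are due to helpers 712, 395, 736, 695, 413, 530, 602, 250, 868, 196, 744, 433.
-/

set_option autoImplicit false

namespace Pool.Agent.Results.MP_39df77_nt.SampledMoments

open Complex MeasureTheory Set Filter Topology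

/-- `z(t) = ζ(1/2 + it)` -/
noncomputable def z (t : ℝ) : ℂ := riemannZeta (1 / 2 + (t : ℂ) * I)

/-- the Gaussian weight `exp (-((t - T)/Δ)^2)` -/
noncomputable def g (T Δ t : ℝ) : ℝ := Real.exp (-((t - T) / Δ) ^ 2)

/-- `z(t)^a conj z(t)^b g(t)` -/
noncomputable def f (a b : ℕ) (T Δ t : ℝ) : ℂ := z t ^ a * (starRingEnd ℂ) (z t) ^ b * ((g T Δ t : ℝ) : ℂ)

/-- the sampled moment: `δ` times the sum of `|z(nδ+τ)|^{2k}` over the integers `n` with `0 < nδ+τ ≤ x` -/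
noncomputable def S (k : ℕ) (δ τ x : ℝ) : ℝ :=
  δ * ∑ᶠ n ∈ {n : ℤ | 0 < (n : ℝ) * δ + τ ∧ (n : ℝ) * δ + τ ≤ x}, ‖z (n * δ + τ)‖ ^ (2 * k)

lemma f_eq (a b : ℕ) (T Δ t : ℝ) : f a b T Δ t = Pool.Agent.N30.AP.zg a b T Δ t := rfl

lemma S_eq (k : ℕ) (δ τ x : ℝ) : S k δ τ x = Pool.Agent.N30.AP.Sa k δ τ x := rfl

lemma Z_eq (k : ℕ) (t : ℝ) : ‖z t‖ ^ (2 * k) = Pool.Agent.W188.QS.Zk k t := rfl

open Pool.Agent.N30.AP in
theorem win : S_WIN := t_WIN t_STRIP (t_TRUNC t_STRIP) (t_SER t_VDC) t_POIS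

open Pool.Agent.N30.AP in
/-- (1) Gaussian windows: sums over progressions against integrals, for all mixed moments, and the equidistribution of
these moments modulo the spacing. (2) Intervals in `[T, 2T]`. (3) The asymptotic formulas for a moment and for any sequence
of sampled moments are equivalent. (4) The sampled fourth moment. -/
theorem result :
    (∀ a b : ℕ, 1 ≤ a → 1 ≤ b → ∀ A ε : ℝ, 0 < A → (a : ℝ) - 1 < A → (b : ℝ) - 1 < A → 0 < ε →
      ∃ B C T₀ : ℝ, ∀ T Δ δ : ℝ, T₀ ≤ T → 1 ≤ Δ → B * Δ * √(Real.log T) ≤ T → 0 < δ →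
      δ * (A * Real.log T) ≤ 2 * Real.pi →
      ∀ τ : ℝ, Summable (fun n : ℤ => f a b T Δ (n * δ + τ)) ∧
        ‖(δ : ℂ) * (∑' n : ℤ, f a b T Δ (n * δ + τ)) - ∫ t : ℝ, f a b T Δ t‖ ≤
          C * T ^ (1 / 2 + (max (a : ℝ) b - A) / 2 + ε) ∧
        ∀ W : Set ℝ, MeasurableSet W → W ⊆ Ico 0 1 →
          ‖(∫ t in {t : ℝ | Int.fract ((t - τ) / δ) ∈ W}, f a b T Δ t) -
              ((volume.real W : ℝ) : ℂ) * ∫ t : ℝ, f a b T Δ t‖ ≤
            volume.real W * (C * T ^ (1 / 2 + (max (a : ℝ) b - A) / 2 + ε))) ∧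
    (∀ k : ℕ, 1 ≤ k → ∀ A : ℝ, 0 < A → (k : ℝ) - 1 < A → ∃ θ T₀ : ℝ, 0 < θ ∧
      ∀ T δ τ u v : ℝ, T₀ ≤ T → 0 < δ → δ * (A * Real.log T) ≤ 2 * Real.pi → T ≤ u → u ≤ v → v ≤ 2 * T →
      (∫ t in u..v, ‖z t‖ ^ (2 * k)) ≤ S k δ τ (v + T ^ (1 - θ)) - S k δ τ (u - T ^ (1 - θ)) + T ^ (1 - θ) ∧
      S k δ τ v - S k δ τ u ≤ (∫ t in (u - T ^ (1 - θ))..(v + T ^ (1 - θ)), ‖z t‖ ^ (2 * k)) + T ^ (1 - θ)) ∧
    (∀ k : ℕ, 1 ≤ k → ∀ A : ℝ, 0 < A → (k : ℝ) - 1 < A → ∀ δ τ : ℝ → ℝ,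
      (∀ᶠ T : ℝ in atTop, 0 < δ T ∧ δ T * (A * Real.log T) ≤ 2 * Real.pi) → ∀ c m : ℝ, 0 ≤ m →
      (Tendsto (fun T => (∫ t in (0 : ℝ)..T, ‖z t‖ ^ (2 * k)) / (T * Real.log T ^ m)) atTop (𝓝 c) ↔
        Tendsto (fun T => S k (δ T) (τ T) T / (T * Real.log T ^ m)) atTop (𝓝 c))) ∧
    (∀ A : ℝ, 1 < A → ∀ δ τ : ℝ → ℝ, (∀ᶠ T : ℝ in atTop, 0 < δ T ∧ δ T * (A * Real.log T) ≤ 2 * Real.pi) →
      Tendsto (fun T => S 2 (δ T) (τ T) T / (T * Real.log T ^ (4 : ℝ))) atTop (𝓝 (1 / (2 * Real.pi ^ 2)))) := by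
  refine ⟨fun a b ha hb A ε hA h1 h2 hε => ?_, fun k hk A hA hkA => ?_, fun k hk A hA hkA δ τ hδ c m hm => ?_,
    fun A hA δ τ hδ => ?_⟩
  · obtain ⟨B, C, T₀, hB, hC, hT0, h⟩ := win a b ha hb A ε hA h1 h2 hε
    refine ⟨B, C, T₀, fun T Δ δ hT hΔ hBT hδ hδA τ => ?_⟩
    have hT100 : 100 ≤ T := hT0.trans hT
    have hTpos : 0 < T := by linarith
    have hlog : 1 ≤ Real.log T := by
      rw [Real.le_log_iff_exp_le hTpos]
      have := Real.exp_one_lt_d9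
      linarith
    have hsq : 1 ≤ √(Real.log T) := by rw [Real.one_le_sqrt]; exact hlog
    have hΔT : Δ ≤ T := by
      have h4 : Δ ≤ B * Δ := by nlinarith
      have h5 : B * Δ * 1 ≤ B * Δ * √(Real.log T) := mul_le_mul_of_nonneg_left hsq (by nlinarith)
      linarith
    have hall := fun τ' : ℝ => h T Δ δ τ' hT hΔ hBT hδ hδA
    refine ⟨(hall τ).1, (hall τ).2, fun W hW hW1 => ?_⟩
    exact t_EQD t_STRIP a b T Δ δ _ hΔ hΔT hδ hall τ W hW hW1
  · obtain ⟨θ, T₀, hθ, -, h⟩ := inter_all win t_MEB (t_MEC t_MEA) t_MEA t_BLOCK hk hA hkA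
    exact ⟨θ, T₀, hθ, h⟩
  · exact equiv_all win t_MEB (t_MEC t_MEA) t_MEA t_BLOCK t_FAM hk hA hkA δ τ hδ c m hm
  · exact (equiv_all win t_MEB (t_MEC t_MEA) t_MEA t_BLOCK t_FAM (k := 2) (by norm_num) (by linarith)
      (by push_cast; linarith) δ τ hδ _ 4 (by norm_num)).1 t_ING

end Pool.Agent.Results.MP_39df77_nt.SampledMoments
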