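import Pool.Agent.N798.Ls4

/-!
# Large values and moments of zeta, read off from almost every sparse sequence `α n^c`

For the sequences `α n^c`, `c ≥ 1`, the almost sure growth of `|ζ(1/2 + iα n^c)|` determines, and is determined by,
the measures of the sets of large values of zeta and its moments.

* (large values) `|{t ≤ T : |ζ(1/2+it)| ≥ T^(κ+ε)}| = O(T^(r+ε))` for all `ε > 0` if and only if for every
  `c > 1 / (1 - r)` and almost every `α > 0` one has `ζ(1/2 + iα n^c) = O(n^(c(κ+ε)))`; a single non-null set of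
  `(α, c)` in each strip `a < c < b` is enough.
* (moments) `∫_1^T |ζ(1/2+it)|^p dt = O(T^(M+ε))` if and only if for every `c ≥ 1` and almost every `α > 0` one has
  `ζ(1/2 + iα n^c) = O(n^((1 + c(M-1))/p + ε))`.  For `M = 1` the exponent is `1/p`, for all `c`: so the Lindelöf
  hypothesis on average of order `p` is a pointwise statement on almost all these sequences, and the Lindelöf
  hypothesis is the same statement with all `p`.
* (unconditional) the fourth moment gives `ζ(1/2 + iα n^c) = O(n^(1/4+ε))` for every `c ≥ 1` and almost every `α`,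
  that is, the exponent `1/(4c)` in place of the Lindelöf exponent `0`.

The proof of the harder direction: let `E` be a measurable set of heights whose measure in `[T, eT]` is more than
`T^r`.  For `(α, c)` uniformly distributed in a square of side `1/log T` the events `α n^c ∈ E` are quasi-independent
(count the pairs `(n, n + d)` for each `d`), hence a positive proportion of every such square is covered if
`c < 1 / (1 - r)`; the Lebesgue density theorem in the plane.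
-/

set_option autoImplicit false

open MeasureTheory

namespace Pool.Agent.Results.MP_39df77_nt.SparseSequences

/-- `|ζ(1/2 + it)|` -/
noncomputable def Z (t : ℝ) : ℝ := ‖riemannZeta (1 / 2 + t * Complex.I)‖

/-- the measure of the set of the `t` in `[0, T]` with `|ζ(1/2 + it)| ≥ T^(κ + ε)` is `O(T^(r + ε))`, for every
`ε > 0` -/
def LargeValues (κ r : ℝ) : Prop := ∀ ε : ℝ, 0 < ε → ∃ C : ℝ, ∀ T : ℝ, 1 ≤ T →
  volume.real {t : ℝ | 0 ≤ t ∧ t ≤ T ∧ T ^ (κ + ε) ≤ Z t} ≤ C * T ^ (r + ε)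

/-- the moment of order `p` of zeta on `[1, T]` is `O(T^(M + ε))`, for every `ε > 0` -/
def Moment (p M : ℝ) : Prop := ∀ ε : ℝ, 0 < ε → ∃ C : ℝ, ∀ T : ℝ, 1 ≤ T →
  ∫ t in (1:ℝ)..T, Z t ^ p ≤ C * T ^ (M + ε)

/-- `|ζ(1/2 + it)| = O((1 + t)^(κ + ε))` at the heights `t = α n^c`, for every `ε > 0` -/
def Along (α c κ : ℝ) : Prop := ∀ ε : ℝ, 0 < ε → ∃ C : ℝ, ∀ n : ℕ,
  Z (α * (n:ℝ) ^ c) ≤ C * (1 + |α * (n:ℝ) ^ c|) ^ (κ + ε)

/-- Large values and moments of zeta on the critical line, in terms of its values along almost every sequence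
`α n^c`. -/
theorem result :
    (∀ κ r : ℝ, 0 ≤ κ → 0 ≤ r → r < 1 →
      (LargeValues κ r ↔ ∀ c : ℝ, 1 / (1 - r) < c → ∀ᵐ α : ℝ, 0 < α → Along α c κ) ∧
      (LargeValues κ r ↔ ∀ᵐ p : ℝ × ℝ, 0 < p.1 → 1 / (1 - r) < p.2 → Along p.1 p.2 κ) ∧
      (LargeValues κ r ↔ ∀ a b : ℝ, 1 / (1 - r) < a → a < b →
        volume {p : ℝ × ℝ | 0 < p.1 ∧ a < p.2 ∧ p.2 < b ∧ Along p.1 p.2 κ} ≠ 0)) ∧
    (∀ p M : ℝ, 0 < p → 1 ≤ M →
      (Moment p M ↔ ∀ c : ℝ, 1 ≤ c → ∀ᵐ α : ℝ, 0 < α → ∀ ε : ℝ, 0 < ε → ∃ C : ℝ, ∀ n : ℕ,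
        Z (α * (n:ℝ) ^ c) ≤ C * (1 + (n:ℝ)) ^ ((1 + c * (M - 1)) / p + ε))) ∧
    (∀ c : ℝ, 1 ≤ c → ∀ᵐ α : ℝ, 0 < α → ∀ ε : ℝ, 0 < ε → ∃ C : ℝ, ∀ n : ℕ,
      Z (α * (n:ℝ) ^ c) ≤ C * (1 + (n:ℝ)) ^ (1 / 4 + ε)) := by
  refine ⟨fun κ r hκ hr hr1 => ?_, fun p M hp hM => ?_, fun c hc => ?_⟩
  · have h := Pool.Agent.N798.Ls.large hκ hr hr1
    exact ⟨h.out 0 1, h.out 0 2, h.out 0 3⟩
  · exact Pool.Agent.N798.Ls.moments_sparse hp hM
  · exact Pool.Agent.N798.Ls.four_sparse c hc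

end Pool.Agent.Results.MP_39df77_nt.SparseSequences
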